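import Pool.Agent.Q143.TR.Sign

/-!
# Collapsing a subgraph of a tree, and a relative theorem on groups acting on trees
-/

set_option autoImplicit false
set_option linter.unusedSectionVars false
set_option linter.style.haveILetI false

namespace Pool.Agent.Q143.TR

open Pool.Agent.Y462.SS Pool.Agent.Q152.WP Pool.Agent.Q143.EI

section collapse

variable {V : Type} (T S : SimpleGraph V)

/-- the graph with the components of `S` collapsed -/
def cg : SimpleGraph S.ConnectedComponent :=
  SimpleGraph.fromRel (fun c d => ∃ u v, S.connectedComponentMk u = c ∧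
    S.connectedComponentMk v = d ∧ T.Adj u v)

theorem cg_adj {c d : S.ConnectedComponent} : (cg T S).Adj c d ↔ c ≠ d ∧
    ∃ u v, S.connectedComponentMk u = c ∧ S.connectedComponentMk v = d ∧ T.Adj u v := by
  rw [cg, SimpleGraph.fromRel_adj]
  refine and_congr_right (fun _ => ⟨?_, Or.inl⟩)
  rintro (h | ⟨u, v, hu, hv, h⟩)
  · exact h
  · exact ⟨v, u, hv, hu, h.symm⟩

variable {T S}

theorem reach_del (hST : S ≤ T) {a b : V}
    (hab : S.connectedComponentMk a ≠ S.connectedComponentMk b) {x y : V}
    (h : S.connectedComponentMk x = S.connectedComponentMk y) :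
    (T.deleteEdges {s(a, b)}).Reachable x y := by
  have h1 : S ≤ T.deleteEdges {s(a, b)} := by
    intro p q hpq
    rw [SimpleGraph.deleteEdges_adj]
    refine ⟨hST hpq, fun h2 => hab ?_⟩
    have h3 : S.connectedComponentMk p = S.connectedComponentMk q :=
      SimpleGraph.ConnectedComponent.sound hpq.reachable
    rw [Set.mem_singleton_iff, Sym2.eq_iff] at h2
    rcases h2 with ⟨rfl, rfl⟩ | ⟨rfl, rfl⟩
    · exact h3
    · exact h3.symm
  exact (SimpleGraph.ConnectedComponent.exact h).mono h1

theorem lift_del (hST : S ≤ T) {a b : V}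
    (hab : S.connectedComponentMk a ≠ S.connectedComponentMk b) {c d : S.ConnectedComponent}
    (p : ((cg T S).deleteEdges {s(S.connectedComponentMk a, S.connectedComponentMk b)}).Walk c d)
    {x y : V} (hx : S.connectedComponentMk x = c) (hy : S.connectedComponentMk y = d) :
    (T.deleteEdges {s(a, b)}).Reachable x y := by
  induction p generalizing x with
  | nil => exact reach_del hST hab (hx.trans hy.symm)
  | cons h p ih =>
    rw [SimpleGraph.deleteEdges_adj, cg_adj] at h
    obtain ⟨⟨_, u, v, hu, hv, huv⟩, h2⟩ := h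
    refine (reach_del hST hab (hx.trans hu.symm)).trans (SimpleGraph.Reachable.trans ?_
      (ih hv hy))
    refine SimpleGraph.Adj.reachable ?_
    rw [SimpleGraph.deleteEdges_adj]
    refine ⟨huv, fun h3 => h2 ?_⟩
    rw [Set.mem_singleton_iff] at h3 ⊢
    rw [← hu, ← hv]
    rw [Sym2.eq_iff] at h3 ⊢
    rcases h3 with ⟨rfl, rfl⟩ | ⟨rfl, rfl⟩
    · exact Or.inl ⟨rfl, rfl⟩
    · exact Or.inr ⟨rfl, rfl⟩

/-- the collapsed graph of a tree is a tree -/
theorem cg_tree (hT : T.IsTree) (hST : S ≤ T) : (cg T S).IsTree := by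
  have hbr := SimpleGraph.isAcyclic_iff_forall_adj_isBridge.1 hT.isAcyclic
  refine ⟨?_, SimpleGraph.isAcyclic_iff_forall_adj_isBridge.2 (fun c d hcd => ?_)⟩
  · obtain ⟨r⟩ := hT.connected.nonempty
    haveI : Nonempty S.ConnectedComponent := ⟨S.connectedComponentMk r⟩
    refine ⟨fun c d => ?_⟩
    induction c using SimpleGraph.ConnectedComponent.ind with | h x =>
    induction d using SimpleGraph.ConnectedComponent.ind with | h y =>
    obtain ⟨p⟩ := hT.connected.preconnected x y
    induction p with
    | nil => exact SimpleGraph.Reachable.refl _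
    | @cons u v w h p ih =>
      refine SimpleGraph.Reachable.trans ?_ ih
      by_cases he : S.connectedComponentMk u = S.connectedComponentMk v
      · rw [he]
      · exact SimpleGraph.Adj.reachable ((cg_adj T S).2 ⟨he, u, v, rfl, rfl, h⟩)
  · rw [cg_adj] at hcd
    obtain ⟨hne, a, b, rfl, rfl, hab⟩ := hcd
    rw [SimpleGraph.isBridge_iff]
    rintro ⟨p⟩
    have h1 := lift_del hST hne p rfl rfl
    exact (SimpleGraph.isBridge_iff.1 (hbr hab)) h1

end collapse

section act

variable {C : ∀ (G : Type) [Group G], Prop} {V Γ Q : Type} [Group Γ] [Group Q] [MulAction Γ V]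
  {T S : SimpleGraph V}
  (hadj : ∀ (γ : Γ) x y, T.Adj x y → T.Adj (γ • x) (γ • y))
  (hadjS : ∀ (γ : Γ) x y, S.Adj x y → S.Adj (γ • x) (γ • y))

/-- the action on the components -/
def actC : MulAction Γ S.ConnectedComponent where
  smul γ c := c.map ⟨fun x => γ • x, fun {x y} h => hadjS γ x y h⟩
  one_smul c := by
    induction c using SimpleGraph.ConnectedComponent.ind with | h x =>
    change S.connectedComponentMk ((1 : Γ) • x) = _
    rw [one_smul]
  mul_smul γ γ' c := by
    induction c using SimpleGraph.ConnectedComponent.ind with | h x =>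
    change S.connectedComponentMk ((γ * γ') • x) = S.connectedComponentMk (γ • γ' • x)
    rw [mul_smul]

/-- the stabilizer of the component of `x` -/
def cs (hadjS : ∀ (γ : Γ) x y, S.Adj x y → S.Adj (γ • x) (γ • y)) (x : V) : Subgroup Γ where
  carrier := {γ | S.Reachable x (γ • x)}
  one_mem' := by
    change S.Reachable x ((1 : Γ) • x)
    rw [one_smul]
  mul_mem' := by
    intro γ γ' h h'
    change S.Reachable x ((γ * γ') • x)
    rw [mul_smul]
    refine SimpleGraph.Reachable.trans h ?_
    exact SimpleGraph.Reachable.map (G := S) (G' := S)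
      ⟨fun x => γ • x, fun {x y} h => hadjS γ x y h⟩ h'
  inv_mem' := by
    intro γ h
    change S.Reachable x (γ⁻¹ • x)
    have h1 : S.Reachable (γ⁻¹ • x) (γ⁻¹ • γ • x) := SimpleGraph.Reachable.map (G := S) (G' := S)
      ⟨fun x => γ⁻¹ • x, fun {x y} h => hadjS γ⁻¹ x y h⟩ h
    rw [inv_smul_smul] at h1
    exact h1.symm

theorem mem_cs {x : V} {γ : Γ} : γ ∈ cs hadjS x ↔ S.Reachable x (γ • x) := Iff.rfl

include hadj in
/-- **The relative theorem.** A group acting on a tree is in the class, if for an invariant subgraph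
`S` the stabilizers of the components of `S` are, and if some homomorphism to a group of the class is
injective on the stabilizers of the edges outside `S`. -/
theorem rel_mem (hT : T.IsTree) (hST : S ≤ T) (hC : Closed C) (hE : ExtClosed C) (hQ : C Q)
    (f : Γ →* Q) (hv : ∀ x : V, C (cs hadjS x))
    (hed : ∀ (γ : Γ) (x y : V), T.Adj x y → ¬ S.Adj x y → γ • x = x → γ • y = y → f γ = 1 →
      γ = 1) : C Γ := by
  letI := actC hadjS
  have hmk : ∀ (γ : Γ) (x : V), γ • S.connectedComponentMk x = S.connectedComponentMk (γ • x) :=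
    fun _ _ => rfl
  have hbr := SimpleGraph.isAcyclic_iff_forall_adj_isBridge.1 hT.isAcyclic
  refine tree_mem (V := S.ConnectedComponent) (cg_tree hT hST) ?_ hC hE hQ f ?_ ?_
  · intro γ c d hcd
    rw [cg_adj] at hcd ⊢
    obtain ⟨hne, a, b, rfl, rfl, hab⟩ := hcd
    exact ⟨fun h => hne (MulAction.injective γ h), γ • a, γ • b, rfl, rfl, hadj γ a b hab⟩
  · intro c
    induction c using SimpleGraph.ConnectedComponent.ind with | h x =>
    refine hC.of_injective _ _ (Subgroup.inclusion (K := cs hadjS x) ?_)
      (Subgroup.inclusion_injective _) (hv x)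
    intro γ hγ
    rw [MulAction.mem_stabilizer_iff, hmk] at hγ
    exact (SimpleGraph.ConnectedComponent.exact hγ).symm
  · intro γ c d hcd hc hd hf
    rw [cg_adj] at hcd
    obtain ⟨hne, a, b, rfl, rfl, hab⟩ := hcd
    rw [hmk] at hc hd
    by_cases h : s(γ • a, γ • b) = s(a, b)
    · rw [Sym2.eq_iff] at h
      rcases h with ⟨h1, h2⟩ | ⟨h1, h2⟩
      · refine hed γ a b hab (fun hS => hne ?_) h1 h2 hf
        exact SimpleGraph.ConnectedComponent.sound hS.reachable
      · exfalso
        apply hne
        rw [← hc, h1]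
    · exfalso
      refine (SimpleGraph.isBridge_iff.1 (hbr hab)) ?_
      refine (reach_del hST hne hc.symm).trans (SimpleGraph.Reachable.trans ?_
        (reach_del hST hne hd))
      refine SimpleGraph.Adj.reachable ?_
      rw [SimpleGraph.deleteEdges_adj]
      exact ⟨hadj γ a b hab, fun h3 => h (Set.mem_singleton_iff.1 h3)⟩

end act

end Pool.Agent.Q143.TR
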