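import Pool.Agent.Q143.EI.Push

/-!
# A cocycle with values in the direct sum of the vertex stabilizers
-/

set_option autoImplicit false
set_option linter.unusedSectionVars false

namespace Pool.Agent.Q143.TR

open Pool.Agent.Q143.EI

variable (V Γ : Type) [Group Γ] [MulAction Γ V]

/-- the direct sum of the stabilizers -/
abbrev KK : Type := Ds (fun v : V => MulAction.stabilizer Γ v)

variable {V Γ}

open Classical in
/-- the inclusion of the stabilizer of `v` -/
noncomputable def jv (v : V) (g : Γ) : KK V Γ :=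
  if h : g ∈ MulAction.stabilizer Γ v then inD (fun v : V => MulAction.stabilizer Γ v) v ⟨g, h⟩
  else 1

theorem jv_mul (v : V) {g g' : Γ} (h : g ∈ MulAction.stabilizer Γ v)
    (h' : g' ∈ MulAction.stabilizer Γ v) : jv v (g * g') = jv v g * jv v g' := by
  unfold jv
  rw [dif_pos h, dif_pos h', dif_pos (mul_mem h h'), ← map_mul]
  rfl

theorem jv_inj (v : V) {g : Γ} (h : g ∈ MulAction.stabilizer Γ v) (h1 : jv v g = 1) : g = 1 := by
  unfold jv at h1
  rw [dif_pos h] at h1
  have h2 := inD_injective (fun v : V => MulAction.stabilizer Γ v) v (h1.trans (map_one _).symm)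
  exact congrArg Subtype.val h2

variable (Γ) in
/-- the representative of the orbit -/
noncomputable def rp (x : V) : V := (Quotient.mk (MulAction.orbitRel Γ V) x).out

theorem rp_smul (γ : Γ) (x : V) : rp Γ (γ • x) = rp Γ x := by
  unfold rp
  congr 1
  exact Quotient.sound ⟨γ, rfl⟩

theorem rp_ex (x : V) : ∃ s : Γ, s • rp Γ x = x := by
  have h1 : (MulAction.orbitRel Γ V).r (rp Γ x) x := Quotient.mk_out (s := MulAction.orbitRel Γ V) x
  have h2 : rp Γ x ∈ MulAction.orbit Γ x := h1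
  obtain ⟨g, hg⟩ := h2
  exact ⟨g⁻¹, by rw [← hg]; exact inv_smul_smul g x⟩

variable (Γ) in
/-- an element which moves the representative to `x` -/
noncomputable def sx (x : V) : Γ := (rp_ex (Γ := Γ) x).choose

theorem sx_spec (x : V) : sx Γ x • rp Γ x = x := (rp_ex (Γ := Γ) x).choose_spec

theorem cc_mem (γ : Γ) (x : V) : (sx Γ (γ • x))⁻¹ * γ * sx Γ x ∈ MulAction.stabilizer Γ (rp Γ x) := by
  rw [MulAction.mem_stabilizer_iff, mul_smul, mul_smul, sx_spec, inv_smul_eq_iff]
  conv_rhs => rw [← rp_smul γ x]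
  exact (sx_spec (γ • x)).symm

/-- the cocycle -/
noncomputable def cc (γ : Γ) (x : V) : KK V Γ := jv (rp Γ x) ((sx Γ (γ • x))⁻¹ * γ * sx Γ x)

theorem cc_mul (γ γ' : Γ) (x : V) : cc (γ * γ') x = cc γ (γ' • x) * cc γ' x := by
  unfold cc
  have h1 := cc_mem γ (γ' • x)
  rw [rp_smul] at h1 ⊢
  rw [← jv_mul _ h1 (cc_mem γ' x)]
  congr 1
  rw [mul_smul]
  group

theorem cc_one (x : V) : cc (1 : Γ) x = 1 := by
  have h1 := cc_mul (1 : Γ) 1 x
  rw [one_smul, mul_one] at h1
  exact left_eq_mul.1 h1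

theorem cc_inj (γ : Γ) (x : V) (h : γ • x = x) (h1 : cc γ x = 1) : γ = 1 := by
  have h2 := jv_inj _ (cc_mem γ x) h1
  rw [h] at h2
  have h3 : γ = sx Γ x * ((sx Γ x)⁻¹ * γ * sx Γ x) * (sx Γ x)⁻¹ := by group
  rw [h3, h2, mul_one, mul_inv_cancel]

end Pool.Agent.Q143.TR
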