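import Pool.Agent.Q143.TR.Tree
import Pool.Agent.Q105.FJ.Free

/-!
# Groups acting on trees with a homomorphism whose kernel acts freely
-/

set_option autoImplicit false
set_option linter.unusedSectionVars false
set_option linter.style.haveILetI false

namespace Pool.Agent.Q143.TR

open Pool.Agent.Y462.SS Pool.Agent.Q152.WP Pool.Agent.Q105.FJ Pool.Agent.H26R2.Idem

variable {C : ∀ (G : Type) [Group G], Prop} {V Γ W : Type} [Group Γ] [Group W] [MulAction Γ V]
  (F : Γ →* W)

/-- two pairs of vertices are in the same orbit of the kernel -/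
def rel : Setoid (V × V) where
  r p p' := ∃ n : Γ, F n = 1 ∧ (n • p.1, n • p.2) = p'
  iseqv := by
    refine ⟨fun p => ⟨1, map_one F, by rw [one_smul, one_smul]⟩, ?_, ?_⟩
    · rintro p p' ⟨n, hn, rfl⟩
      exact ⟨n⁻¹, by rw [map_inv, hn, inv_one], by rw [inv_smul_smul, inv_smul_smul]⟩
    · rintro p p' p'' ⟨n, hn, rfl⟩ ⟨m, hm, rfl⟩
      exact ⟨m * n, by rw [map_mul, hm, hn, one_mul], by rw [mul_smul, mul_smul]⟩

/-- the pairs of vertices modulo the kernel -/
def PB : Type := Quotient (rel (V := V) F)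

/-- the class of a pair -/
def pb (x y : V) : PB (V := V) F := Quotient.mk (rel (V := V) F) (x, y)

theorem pb_eq {x y x' y' : V} (h : pb F x y = pb F x' y') :
    ∃ n : Γ, F n = 1 ∧ n • x = x' ∧ n • y = y' := by
  obtain ⟨n, hn, h1⟩ := Quotient.exact h
  exact ⟨n, hn, congrArg Prod.fst h1, congrArg Prod.snd h1⟩

theorem pb_mk {x y x' y' : V} (n : Γ) (hn : F n = 1) (h1 : n • x = x') (h2 : n • y = y') :
    pb F x y = pb F x' y' :=
  Quotient.sound ⟨n, hn, Prod.ext h1 h2⟩

/-- a preimage -/
noncomputable def pre (q : F.range) : Γ := q.2.choose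

theorem pre_spec (q : F.range) : F (pre F q) = q := q.2.choose_spec

noncomputable instance : MulAction F.range (PB (V := V) F) where
  smul q := Quotient.lift (fun p : V × V => pb F (pre F q • p.1) (pre F q • p.2)) (by
    rintro p p' ⟨n, hn, rfl⟩
    refine pb_mk F (pre F q * n * (pre F q)⁻¹) ?_ ?_ ?_
    · rw [map_mul, map_mul, hn, mul_one, map_inv, mul_inv_cancel]
    · simp only [mul_smul, inv_smul_smul]
    · simp only [mul_smul, inv_smul_smul])
  one_smul := by
    rintro ⟨x, y⟩
    refine pb_mk F (pre F 1)⁻¹ ?_ ?_ ?_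
    · rw [map_inv, pre_spec]
      exact inv_one
    · exact inv_smul_smul _ _
    · exact inv_smul_smul _ _
  mul_smul := by
    rintro q q' ⟨x, y⟩
    refine pb_mk F (pre F q * pre F q' * (pre F (q * q'))⁻¹) ?_ ?_ ?_
    · rw [map_mul, map_mul, map_inv, pre_spec, pre_spec, pre_spec]
      exact mul_inv_cancel _
    · simp only [mul_smul, inv_smul_smul]
    · simp only [mul_smul, inv_smul_smul]

theorem smul_pb (γ : Γ) (x y : V) :
    F.rangeRestrict γ • pb F x y = pb F (γ • x) (γ • y) := by
  refine pb_mk F (γ * (pre F (F.rangeRestrict γ))⁻¹) ?_ ?_ ?_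
  · rw [map_mul, map_inv, pre_spec]
    exact mul_inv_cancel _
  · simp only [mul_smul, inv_smul_smul]
  · simp only [mul_smul, inv_smul_smul]

theorem pAct_lt (γ : Γ) (x y : V) :
    pAct F.range (PB (V := V) F) (F.rangeRestrict γ) (lt (pb F) x y) =
      lt (pb F) (γ • x) (γ • y) := by
  unfold lt
  rw [map_mul, map_inv, pAct_of, pAct_of, smul_pb, smul_pb]

/-- the letters in the semidirect product -/
noncomputable def om (x y : V) : WW F.range (PB (V := V) F) :=
  SemidirectProduct.inl (lt (pb F) x y)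

/-- the cocycle in the semidirect product -/
noncomputable def co (γ : Γ) (_ : V) : WW F.range (PB (V := V) F) :=
  SemidirectProduct.inr (F.rangeRestrict γ)

theorem om_inv (x y : V) : om F y x = (om F x y)⁻¹ := by
  unfold om
  rw [lt_inv, map_inv]

theorem co_mul (γ γ' : Γ) (x : V) : co F (γ * γ') x = co F γ (γ' • x) * co F γ' x := by
  unfold co
  rw [map_mul, map_mul]

theorem om_co (γ : Γ) (x y : V) :
    om F (γ • x) (γ • y) * co F γ x = co F γ y * om F x y := by
  unfold om co
  rw [inr_inl, pAct_lt]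

variable {T : SimpleGraph V} (hT : T.IsTree) (r : V)
  (hadj : ∀ (γ : Γ) x y, T.Adj x y → T.Adj (γ • x) (γ • y))

/-- the homomorphism to the semidirect product -/
noncomputable def Fw : Γ →* WW F.range (PB (V := V) F) :=
  Jt hT r (om F) hadj (fun x y _ => om_inv F x y) (co F) (co_mul F) (fun γ x y _ => om_co F γ x y)

theorem Fw_apply (γ : Γ) : Fw F hT r hadj γ =
    SemidirectProduct.inl (pot hT r (lt (pb F)) (γ • r)) *
      SemidirectProduct.inr (F.rangeRestrict γ) := by
  have h1 := pot_map hT r (lt (pb F)) (SemidirectProduct.inl :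
    FreeGroup (PB (V := V) F) →* WW F.range (PB (V := V) F)) (γ • r)
  rw [← h1]
  rfl

theorem Fw_right (γ : Γ) (h : Fw F hT r hadj γ = 1) : F γ = 1 := by
  rw [Fw_apply] at h
  have h1 := congrArg (fun w : WW F.range (PB (V := V) F) => w.right) h
  simp only [SemidirectProduct.mul_right, SemidirectProduct.right_inl,
    SemidirectProduct.right_inr, one_mul, SemidirectProduct.one_right] at h1
  exact congrArg Subtype.val h1

theorem Fw_injective (hv : ∀ (γ : Γ) (x : V), F γ = 1 → γ • x = x → γ = 1)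
    (he : ∀ (γ : Γ) (x y : V), T.Adj x y → F γ = 1 → γ • x = y → γ • y ≠ x) :
    Function.Injective (Fw F hT r hadj) := by
  refine (injective_iff_map_eq_one _).2 (fun γ h => ?_)
  have hF := Fw_right F hT r hadj γ h
  rw [Fw_apply] at h
  have h1 : F.rangeRestrict γ = 1 := Subtype.ext hF
  rw [h1, map_one, mul_one] at h
  have h2 : pot hT r (lt (pb F)) (γ • r) = 1 := SemidirectProduct.inl_injective
    (h.trans (map_one _).symm)
  have h3 := wp_ne_one (T := T) (pb F) (fun x y hxy hb => ?_) (fun x y z hxy hyz hb => ?_)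
    (pth hT r (γ • r)) (pth_isPath hT r _) h2
  · exact hv γ r hF h3
  · obtain ⟨n, hn, h4, h5⟩ := pb_eq F hb
    exact he n x y hxy hn h4 h5
  · obtain ⟨n, hn, h4, h5⟩ := pb_eq F hb
    have h6 := hv n y hn h4
    rw [← h5, h6, one_smul]

include hT hadj in
/-- **Groups acting on trees with a homomorphism whose kernel acts freely.** -/
theorem vert_mem (hC : Closed C) (hE : ExtClosed C) (hW : C W)
    (hv : ∀ (γ : Γ) (x : V), F γ = 1 → γ • x = x → γ = 1)
    (he : ∀ (γ : Γ) (x y : V), T.Adj x y → F γ = 1 → γ • x = y → γ • y ≠ x) : C Γ := by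
  obtain ⟨r⟩ := hT.connected.nonempty
  exact hC.of_injective _ _ (Fw F hT r hadj) (Fw_injective F hT r hadj hv he)
    (ww_mem hC hE _ _ (of_sub hC _ hW))

end Pool.Agent.Q143.TR
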