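import Pool.Agent.Q143.TR.Coc
import Pool.Agent.Q143.TR.Vert

/-!
# Groups acting on trees with a homomorphism that is injective on the edge stabilizers
-/

set_option autoImplicit false
set_option linter.unusedSectionVars false
set_option linter.style.haveILetI false

namespace Pool.Agent.Q143.TR

open Pool.Agent.Y462.SS Pool.Agent.Q152.WP Pool.Agent.Q105.FJ Pool.Agent.H26R2.Idem
  Pool.Agent.Q152.EM Pool.Agent.Q143.EI

variable {C : ∀ (G : Type) [Group G], Prop} {V Γ Q : Type} [Group Γ] [Group Q] [MulAction Γ V]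
  (f : Γ →* Q)

/-! ## representatives of the classes of pairs -/

/-- the representative -/
noncomputable def ou (b : PB (V := V) f) : V × V := Quotient.out (s := rel (V := V) f) b

theorem ou_mk (b : PB (V := V) f) : pb f (ou f b).1 (ou f b).2 = b :=
  Quotient.out_eq (s := rel (V := V) f) b

theorem kap_ex (q : f.range) (b : PB (V := V) f) : ∃ γ : Γ, f γ = q ∧
    γ • (ou f b).1 = (ou f (q • b)).1 ∧ γ • (ou f b).2 = (ou f (q • b)).2 := by
  obtain ⟨γ0, h0⟩ := q.2
  have hq : f.rangeRestrict γ0 = q := Subtype.ext h0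
  have h1 : pb f (γ0 • (ou f b).1) (γ0 • (ou f b).2) =
      pb f (ou f (q • b)).1 (ou f (q • b)).2 := by
    rw [← smul_pb, ou_mk, ou_mk, hq]
  obtain ⟨n, hn, h2, h3⟩ := pb_eq f h1
  exact ⟨n * γ0, by rw [map_mul, hn, one_mul, h0], by rw [mul_smul, h2], by rw [mul_smul, h3]⟩

/-- the element which maps the representatives -/
noncomputable def kap (q : f.range) (b : PB (V := V) f) : Γ := (kap_ex f q b).choose

theorem kap_f (q : f.range) (b : PB (V := V) f) : f (kap f q b) = q :=
  (kap_ex f q b).choose_spec.1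

theorem kap_fst (q : f.range) (b : PB (V := V) f) :
    kap f q b • (ou f b).1 = (ou f (q • b)).1 := (kap_ex f q b).choose_spec.2.1

theorem kap_snd (q : f.range) (b : PB (V := V) f) :
    kap f q b • (ou f b).2 = (ou f (q • b)).2 := (kap_ex f q b).choose_spec.2.2

theorem mm_ex (x y : V) : ∃ n : Γ, f n = 1 ∧ n • (ou f (pb f x y)).1 = x ∧
    n • (ou f (pb f x y)).2 = y := pb_eq f (ou_mk f (pb f x y))

/-- the element of the kernel which maps the representative to the pair -/
noncomputable def mm (x y : V) : Γ := (mm_ex f x y).choose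

theorem mm_f (x y : V) : f (mm f x y) = 1 := (mm_ex f x y).choose_spec.1

theorem mm_fst (x y : V) : mm f x y • (ou f (pb f x y)).1 = x := (mm_ex f x y).choose_spec.2.1

theorem mm_snd (x y : V) : mm f x y • (ou f (pb f x y)).2 = y := (mm_ex f x y).choose_spec.2.2

variable {T : SimpleGraph V}
  (hadj : ∀ (γ : Γ) x y, T.Adj x y → T.Adj (γ • x) (γ • y))
  (hed : ∀ (γ : Γ) (x y : V), T.Adj x y → f γ = 1 → γ • x = x → γ • y = y → γ = 1)

include hed in
theorem uniq {γ γ' : Γ} (h : f γ = f γ') {x y : V} (hxy : T.Adj x y) (h1 : γ • x = γ' • x)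
    (h2 : γ • y = γ' • y) : γ = γ' := by
  have h3 := hed (γ'⁻¹ * γ) x y hxy (by rw [map_mul, map_inv, h, inv_mul_cancel])
    (by rw [mul_smul, h1, inv_smul_smul]) (by rw [mul_smul, h2, inv_smul_smul])
  exact (inv_mul_eq_one.1 h3).symm

variable (T) in
/-- the representative is a pair of adjacent vertices -/
def ok (b : PB (V := V) f) : Prop := T.Adj (ou f b).1 (ou f b).2

include hadj in
theorem ok_smul (q : f.range) (b : PB (V := V) f) : ok f T (q • b) ↔ ok f T b := by
  unfold ok
  rw [← kap_fst, ← kap_snd]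
  refine ⟨fun h => ?_, hadj _ _ _⟩
  have h1 := hadj (kap f q b)⁻¹ _ _ h
  rwa [inv_smul_smul, inv_smul_smul] at h1

include hadj in
theorem ok_mk {x y : V} (h : T.Adj x y) : ok f T (pb f x y) := by
  have h1 := hadj (mm f x y)⁻¹ x y h
  conv at h1 => rw [← mm_fst f x y, ← mm_snd f x y]
  unfold ok
  have h2 := mm_fst f x y
  have h3 := mm_snd f x y
  rw [smul_eq_iff_eq_inv_smul] at h2 h3
  rw [h2, h3]
  exact hadj _ _ _ h

include hed in
theorem kap_mul (q q' : f.range) {b : PB (V := V) f} (hb : ok f T b) :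
    kap f (q * q') b = kap f q (q' • b) * kap f q' b := by
  refine uniq f hed ?_ hb ?_ ?_
  · rw [map_mul, kap_f, kap_f, kap_f]
    rfl
  · rw [kap_fst, mul_smul (kap f q (q' • b)), kap_fst, kap_fst, mul_smul]
  · rw [kap_snd, mul_smul (kap f q (q' • b)), kap_snd, kap_snd, mul_smul]

open Classical in
variable (T) in
/-- the labels of the rays -/
noncomputable def kk (q : f.range) (b : PB (V := V) f) : KK V Γ :=
  if ok f T b then cc (kap f q b) (ou f b).1 else 1

include hadj hed in
theorem kk_mul (q q' : f.range) (b : PB (V := V) f) :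
    kk f T (q * q') b = kk f T q (q' • b) * kk f T q' b := by
  unfold kk
  by_cases hb : ok f T b
  · rw [if_pos hb, if_pos hb, if_pos ((ok_smul f hadj q' b).2 hb), kap_mul f hed q q' hb, cc_mul,
      kap_fst]
  · rw [if_neg hb, if_neg hb, if_neg (fun h => hb ((ok_smul f hadj q' b).1 h)), mul_one]

include hadj hed in
theorem kk_one (b : PB (V := V) f) : kk f T 1 b = 1 := by
  have h1 := kk_mul f hadj hed 1 1 b
  rw [one_smul, mul_one] at h1
  exact left_eq_mul.1 h1

/-! ## the labelled actions -/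

/-- the index set -/
abbrev YT : Type := ℕ ⊕ (PB (V := V) f × ℕ)

variable (V) in
/-- the permutation given by `q` -/
noncomputable def pT (q : f.range) : Equiv.Perm (YT (V := V) f) where
  toFun
    | Sum.inl n => Sum.inl n
    | Sum.inr (b, n) => Sum.inr (q • b, n)
  invFun
    | Sum.inl n => Sum.inl n
    | Sum.inr (b, n) => Sum.inr (q⁻¹ • b, n)
  left_inv := by
    rintro (n | ⟨b, n⟩)
    · rfl
    · change Sum.inr (q⁻¹ • q • b, n) = _
      rw [inv_smul_smul]
  right_inv := by
    rintro (n | ⟨b, n⟩)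
    · rfl
    · change Sum.inr (q • q⁻¹ • b, n) = _
      rw [smul_inv_smul]

open Classical in
/-- the shift along the ray of `b` -/
noncomputable def thf (b : PB (V := V) f) : YT (V := V) f → YT (V := V) f
  | Sum.inl (n + 1) => Sum.inl n
  | Sum.inl 0 => Sum.inr (b, 0)
  | Sum.inr (b', n) => if b' = b then Sum.inr (b', n + 1) else Sum.inr (b', n)

open Classical in
/-- the inverse of the shift -/
noncomputable def thi (b : PB (V := V) f) : YT (V := V) f → YT (V := V) f
  | Sum.inl n => Sum.inl (n + 1)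
  | Sum.inr (b', 0) => if b' = b then Sum.inl 0 else Sum.inr (b', 0)
  | Sum.inr (b', n + 1) => if b' = b then Sum.inr (b', n) else Sum.inr (b', n + 1)

/-- the shift along the ray of `b` -/
noncomputable def thp (b : PB (V := V) f) : Equiv.Perm (YT (V := V) f) where
  toFun := thf f b
  invFun := thi f b
  left_inv := by
    rintro ((_ | n) | ⟨b', n⟩)
    · simp [thf, thi]
    · simp [thf, thi]
    · by_cases h : b' = b
      · simp [thf, thi, h]
      · cases n with
        | zero => simp [thf, thi, h]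
        | succ n => simp [thf, thi, h]
  right_inv := by
    rintro (n | ⟨b', n⟩)
    · simp [thf, thi]
    · by_cases h : b' = b
      · cases n with
        | zero => simp [thf, thi, h]
        | succ n => simp [thf, thi, h]
      · cases n with
        | zero => simp [thf, thi, h]
        | succ n => simp [thf, thi, h]

variable (T) in
/-- the labels -/
noncomputable def labT (k : KK V Γ) (q : f.range) : YT (V := V) f → KK V Γ
  | Sum.inl 0 => k
  | Sum.inl (_ + 1) => 1
  | Sum.inr (b, _) => kk f T q b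

/-- the labelled action -/
noncomputable def LT : KK V Γ × f.range →* Wr (YT (V := V) f) (KK V Γ) where
  toFun x := ⟨labT f T x.1 x.2, pT V f x.2⟩
  map_one' := by
    refine Wr.ext (funext ?_) (Equiv.ext ?_)
    · rintro ((_ | n) | ⟨b, n⟩)
      · rfl
      · rfl
      · exact kk_one f hadj hed b
    · rintro (n | ⟨b, n⟩)
      · rfl
      · change Sum.inr ((1 : f.range) • b, n) = Sum.inr (b, n)
        rw [one_smul]
  map_mul' x y := by
    refine Wr.ext (funext ?_) (Equiv.ext ?_)
    · rintro ((_ | n) | ⟨b, n⟩)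
      · rfl
      · exact (mul_one _).symm
      · exact kk_mul f hadj hed x.2 y.2 b
    · rintro (n | ⟨b, n⟩)
      · rfl
      · change Sum.inr ((x.2 * y.2) • b, n) = Sum.inr (x.2 • y.2 • b, n)
        rw [mul_smul]

/-- the shift in the wreath product -/
noncomputable def TH (b : PB (V := V) f) : Wr (YT (V := V) f) (KK V Γ) := ⟨fun _ => 1, thp f b⟩

theorem LT_TH (q : f.range) (b : PB (V := V) f) :
    LT f hadj hed (1, q) * TH f b = TH f (q • b) * LT f hadj hed (kk f T q b, q) := by
  refine Wr.ext (funext ?_) (Equiv.ext ?_)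
  · intro y
    change labT f T 1 q (thf f b y) * 1 = 1 * labT f T (kk f T q b) q y
    rw [one_mul, mul_one]
    rcases y with (_ | n) | ⟨b', n⟩
    · rfl
    · cases n <;> rfl
    · by_cases h : b' = b
      · subst h
        simp [thf, labT]
      · simp [thf, labT, h]
  · rintro ((_ | n) | ⟨b', n⟩)
    · rfl
    · rfl
    · change pT V f q (thf f b (Sum.inr (b', n))) = thf f (q • b) (Sum.inr (q • b', n))
      by_cases h : b' = b
      · subst h
        simp [thf, pT]
      · have h' : q • b' ≠ q • b := fun h1 => h (MulAction.injective q h1)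
        simp [thf, pT, h, h']

theorem LT_mem (k : KK V Γ) : LT f hadj hed (k, 1) ∈ Nf (YT (V := V) f) (KK V Γ) := by
  refine ⟨?_, (Set.finite_singleton (Sum.inl 0)).subset ?_⟩
  · refine Equiv.ext ?_
    rintro (n | ⟨b, n⟩)
    · rfl
    · change Sum.inr ((1 : f.range) • b, n) = Sum.inr (b, n)
      rw [one_smul]
  · rintro ((_ | n) | ⟨b, n⟩) hx
    · rfl
    · exact (hx rfl).elim
    · exact (hx (kk_one f hadj hed b)).elim

theorem mk_LT (k : KK V Γ) (q : f.range) : (QuotientGroup.mk' (Nf (YT (V := V) f) (KK V Γ)))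
    (LT f hadj hed (k, q)) =
    (QuotientGroup.mk' (Nf (YT (V := V) f) (KK V Γ))) (LT f hadj hed (1, q)) := by
  have h1 : (k, q) = ((1 : KK V Γ), q) * (k, (1 : f.range)) := by simp
  rw [h1, map_mul, map_mul]
  have h2 : (QuotientGroup.mk' (Nf (YT (V := V) f) (KK V Γ))) (LT f hadj hed (k, 1)) = 1 :=
    (QuotientGroup.eq_one_iff _).2 (LT_mem f hadj hed k)
  rw [h2, mul_one]

/-! ## the parallel transport -/

/-- the correction of the labels -/
noncomputable def aa (x y : V) : KK V Γ := cc (mm f x y) (ou f (pb f x y)).1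

/-- the map from the fibre over `x` given by the edge to `y` -/
noncomputable def Tm (x y : V) : Wr (YT (V := V) f) (KK V Γ) :=
  TH f (pb f x y) * LT f hadj hed ((aa f x y)⁻¹, 1)

/-- the cocycle -/
noncomputable def lam (γ : Γ) (x : V) : Wr (YT (V := V) f) (KK V Γ) :=
  LT f hadj hed (cc γ x, f.rangeRestrict γ)

theorem lam_mul (γ γ' : Γ) (x : V) :
    lam f hadj hed (γ * γ') x = lam f hadj hed γ (γ' • x) * lam f hadj hed γ' x := by
  unfold lam
  rw [← map_mul, cc_mul, map_mul]
  rfl

include hadj hed in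
theorem cc_aa (γ : Γ) {x y : V} (h : T.Adj x y) :
    cc γ x * aa f x y = aa f (γ • x) (γ • y) *
      cc (kap f (f.rangeRestrict γ) (pb f x y)) (ou f (pb f x y)).1 := by
  unfold aa
  have e1 : cc γ x * cc (mm f x y) (ou f (pb f x y)).1 =
      cc (γ * mm f x y) (ou f (pb f x y)).1 := by
    rw [cc_mul, mm_fst]
  have e0 : f.rangeRestrict γ • pb f x y = pb f (γ • x) (γ • y) := smul_pb f γ x y
  have e2 : cc (mm f (γ • x) (γ • y)) (ou f (pb f (γ • x) (γ • y))).1 *
      cc (kap f (f.rangeRestrict γ) (pb f x y)) (ou f (pb f x y)).1 =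
      cc (mm f (γ • x) (γ • y) * kap f (f.rangeRestrict γ) (pb f x y)) (ou f (pb f x y)).1 := by
    rw [cc_mul, kap_fst, e0]
  rw [e1, e2]
  congr 1
  refine uniq f hed (x := (ou f (pb f x y)).1) (y := (ou f (pb f x y)).2) ?_ ?_ ?_ ?_
  · rw [map_mul, map_mul, mm_f, mm_f, kap_f, mul_one, one_mul]
    rfl
  · exact ok_mk f hadj h
  · rw [mul_smul, mm_fst, mul_smul, kap_fst, e0, mm_fst]
  · rw [mul_smul, mm_snd, mul_smul, kap_snd, e0, mm_snd]

theorem star (γ : Γ) {x y : V} (h : T.Adj x y) :
    Tm f hadj hed (γ • x) (γ • y) * lam f hadj hed γ x =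
      LT f hadj hed (1, f.rangeRestrict γ) * Tm f hadj hed x y := by
  unfold Tm lam
  have e0 : f.rangeRestrict γ • pb f x y = pb f (γ • x) (γ • y) := smul_pb f γ x y
  rw [mul_assoc, ← map_mul, ← mul_assoc, LT_TH, e0, mul_assoc, ← map_mul]
  congr 2
  refine Prod.ext ?_ ?_
  · change (aa f (γ • x) (γ • y))⁻¹ * cc γ x = kk f T (f.rangeRestrict γ) (pb f x y) * (aa f x y)⁻¹
    have h1 : kk f T (f.rangeRestrict γ) (pb f x y) =
        cc (kap f (f.rangeRestrict γ) (pb f x y)) (ou f (pb f x y)).1 := if_pos (ok_mk f hadj h)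
    rw [h1, inv_mul_eq_iff_eq_mul, ← mul_assoc, ← cc_aa f hadj hed γ h, mul_inv_cancel_right]
  · change 1 * f.rangeRestrict γ = f.rangeRestrict γ * 1
    rw [one_mul, mul_one]

/-- the transport along an edge -/
noncomputable def omT (x y : V) : Wr (YT (V := V) f) (KK V Γ) :=
  (Tm f hadj hed y x)⁻¹ * Tm f hadj hed x y

theorem omT_inv (x y : V) : omT f hadj hed y x = (omT f hadj hed x y)⁻¹ := by
  unfold omT
  rw [mul_inv_rev, inv_inv]

theorem omT_lam (γ : Γ) (x y : V) (h : T.Adj x y) :
    omT f hadj hed (γ • x) (γ • y) * lam f hadj hed γ x =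
      lam f hadj hed γ y * omT f hadj hed x y := by
  have h1 := star f hadj hed γ h
  have h2 := star f hadj hed γ h.symm
  unfold omT
  rw [mul_assoc, h1, ← mul_assoc, ← mul_assoc]
  congr 1
  rw [inv_mul_eq_iff_eq_mul, ← mul_assoc, h2, mul_inv_cancel_right]

variable (hT : T.IsTree) (r : V)

/-- the homomorphism to the wreath product -/
noncomputable def JT : Γ →* Wr (YT (V := V) f) (KK V Γ) :=
  Jt hT r (omT f hadj hed) hadj (fun x y _ => omT_inv f hadj hed x y) (lam f hadj hed)
    (lam_mul f hadj hed) (omT_lam f hadj hed)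

/-- the homomorphism modulo the elements of finite support -/
noncomputable def DT : WW f.range (PB (V := V) f) →*
    Wr (YT (V := V) f) (KK V Γ) ⧸ Nf (YT (V := V) f) (KK V Γ) :=
  SemidirectProduct.lift
    (FreeGroup.lift (fun b => QuotientGroup.mk' (Nf (YT (V := V) f) (KK V Γ)) (TH f b)))
    ((QuotientGroup.mk' (Nf (YT (V := V) f) (KK V Γ))).comp
      ((LT f hadj hed).comp (MonoidHom.inr (KK V Γ) f.range))) (by
    intro q
    refine FreeGroup.ext_hom _ _ (fun b => ?_)
    change FreeGroup.lift (fun b => QuotientGroup.mk' (Nf (YT (V := V) f) (KK V Γ)) (TH f b))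
        (pAct f.range (PB (V := V) f) q (FreeGroup.of b)) =
      QuotientGroup.mk' (Nf (YT (V := V) f) (KK V Γ)) (LT f hadj hed (1, q)) *
        FreeGroup.lift (fun b => QuotientGroup.mk' (Nf (YT (V := V) f) (KK V Γ)) (TH f b))
          (FreeGroup.of b) *
        (QuotientGroup.mk' (Nf (YT (V := V) f) (KK V Γ)) (LT f hadj hed (1, q)))⁻¹
    rw [pAct_of, FreeGroup.lift_apply_of, FreeGroup.lift_apply_of, ← map_mul, LT_TH, map_mul,
      mk_LT, mul_inv_cancel_right])

theorem DT_om (x y : V) : DT f hadj hed (om f x y) =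
    QuotientGroup.mk' _ (omT f hadj hed x y) := by
  have h1 : ∀ x y, QuotientGroup.mk' (Nf (YT (V := V) f) (KK V Γ)) (Tm f hadj hed x y) =
      QuotientGroup.mk' _ (TH f (pb f x y)) := by
    intro x y
    unfold Tm
    rw [map_mul, mk_LT]
    have h2 : LT f hadj hed ((1 : KK V Γ), (1 : f.range)) = 1 := map_one _
    rw [h2, map_one, mul_one]
  unfold omT om
  rw [map_mul, map_inv, h1, h1]
  change SemidirectProduct.lift _ _ _ (SemidirectProduct.inl _) = _
  rw [SemidirectProduct.lift_inl]
  unfold lt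
  rw [map_mul, map_inv, FreeGroup.lift_apply_of, FreeGroup.lift_apply_of]

theorem DT_Fw (γ : Γ) : DT f hadj hed (Fw f hT r hadj γ) =
    QuotientGroup.mk' _ (JT f hadj hed hT r γ) := by
  have h1 : ∀ x, DT f hadj hed (pot hT r (om f) x) =
      QuotientGroup.mk' _ (pot hT r (omT f hadj hed) x) := by
    intro x
    rw [← pot_map, ← pot_map]
    congr 1
    funext x y
    exact DT_om f hadj hed x y
  have h2 : Fw f hT r hadj γ = pot hT r (om f) (γ • r) * co f γ r := rfl
  have h3 : JT f hadj hed hT r γ =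
    pot hT r (omT f hadj hed) (γ • r) * lam f hadj hed γ r := rfl
  rw [h2, h3, map_mul, map_mul, h1]
  congr 1
  unfold co lam
  rw [mk_LT]
  change SemidirectProduct.lift _ _ _ (SemidirectProduct.inr _) = _
  rw [SemidirectProduct.lift_inr]
  rfl

include hT hadj hed in
/-- **Groups acting on trees with a homomorphism to a group of the class which is injective on the
edge stabilizers.** -/
theorem edge_mem (hC : Closed C) (hE : ExtClosed C) (hQ : C Q)
    (hv : ∀ v : V, C (MulAction.stabilizer Γ v))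
    (hinv : ∀ (γ : Γ) (x y : V), T.Adj x y → f γ = 1 → γ • x = y → γ • y ≠ x) : C Γ := by
  obtain ⟨r⟩ := hT.connected.nonempty
  have hW := range_mem hC hE (Ds_mem _ hC hv)
    (ww_mem hC hE f.range (PB (V := V) f) (of_sub hC _ hQ)) (JT f hadj hed hT r)
    (Fw f hT r hadj) (fun γ hγ => by
      have h1 := DT_Fw f hadj hed hT r γ
      rw [hγ, map_one] at h1
      exact (QuotientGroup.eq_one_iff _).1 h1.symm)
  refine vert_mem ((JT f hadj hed hT r).prod (Fw f hT r hadj)).rangeRestrict hT hadj hC hE hW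
    (fun γ x h hx => ?_) (fun γ x y hxy h hx => ?_)
  · have h1 : JT f hadj hed hT r γ = 1 := congrArg (fun w => (Subtype.val w).1) h
    have h2 : JT f hadj hed hT r γ * pot hT r (omT f hadj hed) x =
      pot hT r (omT f hadj hed) (γ • x) * lam f hadj hed γ x :=
        Jt_pot hT r (omT f hadj hed) hadj (fun x y _ => omT_inv f hadj hed x y)
          (lam f hadj hed) (lam_mul f hadj hed) (omT_lam f hadj hed) γ x
    rw [h1, hx, one_mul] at h2
    have h3 : lam f hadj hed γ x = 1 := by
      have h4 := mul_left_cancel ((mul_one _).trans h2)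
      exact h4.symm
    have h5 : (lam f hadj hed γ x).s (Sum.inl 0) = cc γ x := rfl
    rw [h3] at h5
    exact cc_inj γ x hx h5.symm
  · have h1 : Fw f hT r hadj γ = 1 := congrArg (fun w => (Subtype.val w).2) h
    exact hinv γ x y hxy (Fw_right f hT r hadj γ h1) hx

end Pool.Agent.Q143.TR
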