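import Pool.Agent.Q143.TR.Edge

/-!
# Groups acting on trees, with inversions
-/

set_option autoImplicit false
set_option linter.unusedSectionVars false
set_option linter.style.haveILetI false

namespace Pool.Agent.Q143.TR

open Pool.Agent.Y462.SS Pool.Agent.Q152.WP Pool.Agent.Q143.EI

variable {C : ∀ (G : Type) [Group G], Prop} {V Γ Q : Type} [Group Γ] [Group Q] [MulAction Γ V]
  {T : SimpleGraph V} (hT : T.IsTree) (r : V)
  (hadj : ∀ (γ : Γ) x y, T.Adj x y → T.Adj (γ • x) (γ • y))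

/-- the parity of the displacement -/
noncomputable def sgn : Γ →* ℤˣ :=
  Jt hT r (fun _ _ => (-1 : ℤˣ)) hadj (fun _ _ _ => by simp) (fun _ _ => 1) (fun _ _ _ => by simp)
    (fun _ _ _ _ => by simp)

theorem sgn_inv (γ : Γ) {x y : V} (h : T.Adj x y) (hx : γ • x = y) : sgn hT r hadj γ = -1 := by
  have h1 : sgn hT r hadj γ * pot hT r (fun _ _ => (-1 : ℤˣ)) x =
      pot hT r (fun _ _ => (-1 : ℤˣ)) (γ • x) * 1 :=
    Jt_pot hT r (fun _ _ => (-1 : ℤˣ)) hadj (fun _ _ _ => by simp) (fun _ _ => 1)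
      (fun (_ _ : Γ) _ => by simp) (fun _ _ _ _ => by simp) γ x
  have h2 := pot_adj hT r (fun _ _ => (-1 : ℤˣ)) (fun _ _ _ => by simp) h
  rw [hx, h2, mul_one, ← mul_assoc] at h1
  have h3 : sgn hT r hadj γ * pot hT r (fun _ _ => (-1 : ℤˣ)) y * (-1) =
    pot hT r (fun _ _ => (-1 : ℤˣ)) y := h1
  have h4 : sgn hT r hadj γ * (-1) = 1 := by
    have h5 : sgn hT r hadj γ * (-1) * pot hT r (fun _ _ => (-1 : ℤˣ)) y =
        1 * pot hT r (fun _ _ => (-1 : ℤˣ)) y := by
      rw [one_mul, mul_right_comm]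
      exact h3
    exact mul_right_cancel h5
  rw [mul_neg, mul_one] at h4
  rw [← h4, neg_neg]

include hT hadj in
/-- **Groups acting on trees with a homomorphism to a group of the class which is injective on the
edge stabilizers.** -/
theorem tree_mem (hC : Closed C) (hE : ExtClosed C) (hQ : C Q) (f : Γ →* Q)
    (hv : ∀ v : V, C (MulAction.stabilizer Γ v))
    (hed : ∀ (γ : Γ) (x y : V), T.Adj x y → γ • x = x → γ • y = y → f γ = 1 → γ = 1) : C Γ := by
  obtain ⟨r⟩ := hT.connected.nonempty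
  refine edge_mem (f.prod (sgn hT r hadj)) hadj (fun γ x y h hf hx hy => ?_) hT hC hE
    (hC.prod _ _ hQ (Pool.Agent.Y812.SS.C_finite hC ℤˣ)) hv (fun γ x y h hf hx => ?_)
  · exact hed γ x y h hx hy (congrArg Prod.fst hf)
  · have h1 : sgn hT r hadj γ = 1 := congrArg Prod.snd hf
    rw [sgn_inv hT r hadj γ h hx] at h1
    exact absurd h1 (by decide)

end Pool.Agent.Q143.TR
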