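import Mathlib

/-!
# Potentials on trees, and homomorphisms from groups acting on trees
-/

set_option autoImplicit false
set_option linter.unusedSectionVars false

namespace Pool.Agent.Q143.TR

variable {V : Type} {T : SimpleGraph V} (hT : T.IsTree) (r : V)

/-- the path from `x` to the root -/
noncomputable def pth (x : V) : T.Walk x r := (hT.existsUnique_path x r).choose

theorem pth_isPath (x : V) : (pth hT r x).IsPath := (hT.existsUnique_path x r).choose_spec.1

theorem pth_unique {x : V} (q : T.Walk x r) (hq : q.IsPath) : q = pth hT r x :=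
  (hT.existsUnique_path x r).unique hq (pth_isPath hT r x)

theorem pth_root : pth hT r r = SimpleGraph.Walk.nil :=
  (pth_unique hT r SimpleGraph.Walk.nil SimpleGraph.Walk.IsPath.nil).symm

/-- of two adjacent vertices, one is the next vertex on the path from the other one to the root -/
theorem dich {x y : V} (h : T.Adj x y) :
    pth hT r x = SimpleGraph.Walk.cons h (pth hT r y) ∨
      pth hT r y = SimpleGraph.Walk.cons h.symm (pth hT r x) := by
  by_cases hx : x ∈ (pth hT r y).support
  · right
    have h1 := hT.isAcyclic.eq_snd_of_adj_start (pth_isPath hT r y) h.symm hx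
    have key : ∀ (q : T.Walk y r), q.IsPath → x = q.snd → x ∈ q.support →
        q = SimpleGraph.Walk.cons h.symm (pth hT r x) := by
      intro q hq hx' hxs
      cases q with
      | nil =>
        rw [SimpleGraph.Walk.support_nil, List.mem_singleton] at hxs
        exact absurd hxs h.ne
      | cons h' q' =>
        rw [SimpleGraph.Walk.snd_cons] at hx'
        subst hx'
        rw [SimpleGraph.Walk.cons_isPath_iff] at hq
        rw [pth_unique hT r q' hq.1]
    exact key _ (pth_isPath hT r y) h1 hx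
  · left
    exact (pth_unique hT r _ ((SimpleGraph.Walk.cons_isPath_iff h _).2
      ⟨pth_isPath hT r y, hx⟩)).symm

variable {M : Type} [Group M] (ω : V → V → M)

/-- the product along a walk -/
def wp : ∀ {x y : V}, T.Walk x y → M
  | _, _, .nil => 1
  | x, _, .cons (v := y) _ q => wp q * ω x y

/-- the potential -/
noncomputable def pot (x : V) : M := wp ω (pth hT r x)

theorem pot_root : pot hT r ω r = 1 := by
  unfold pot
  rw [pth_root]
  rfl

theorem pot_adj (hω : ∀ x y, T.Adj x y → ω y x = (ω x y)⁻¹) {x y : V} (h : T.Adj x y) :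
    pot hT r ω x = pot hT r ω y * ω x y := by
  unfold pot
  rcases dich hT r h with h1 | h1
  · rw [h1]
    rfl
  · rw [h1]
    change _ = wp ω (pth hT r x) * ω y x * ω x y
    rw [hω x y h, inv_mul_cancel_right]

include hT in
theorem pot_unique {p p' : V → M} (hp : ∀ x y, T.Adj x y → p x = p y * ω x y)
    (hp' : ∀ x y, T.Adj x y → p' x = p' y * ω x y) (h : p r = p' r) (x : V) : p x = p' x := by
  have key : ∀ {x y : V} (_ : T.Walk x y), p y = p' y → p x = p' x := by
    intro x y q
    induction q with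
    | nil => exact id
    | cons h q ih =>
      intro hy
      rw [hp _ _ h, hp' _ _ h, ih hy]
  exact key (pth hT r x) h

section act

variable {Γ : Type} [Group Γ] [MulAction Γ V]
  (hadj : ∀ (γ : Γ) x y, T.Adj x y → T.Adj (γ • x) (γ • y))
  (hω : ∀ x y, T.Adj x y → ω y x = (ω x y)⁻¹)
  (c : Γ → V → M) (hc : ∀ γ γ' x, c (γ * γ') x = c γ (γ' • x) * c γ' x)
  (hcω : ∀ γ x y, T.Adj x y → ω (γ • x) (γ • y) * c γ x = c γ y * ω x y)

include hT hadj hω hcω in
theorem J_pot (γ : Γ) (x : V) :
    (pot hT r ω (γ • r) * c γ r) * pot hT r ω x = pot hT r ω (γ • x) * c γ x := by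
  refine pot_unique hT r ω (p := fun x => (pot hT r ω (γ • r) * c γ r) * pot hT r ω x)
    (p' := fun x => pot hT r ω (γ • x) * c γ x) (fun x y h => ?_) (fun x y h => ?_) ?_ x
  · rw [pot_adj hT r ω hω h, ← mul_assoc]
  · rw [pot_adj hT r ω hω (hadj γ x y h), mul_assoc, hcω γ x y h, mul_assoc]
  · rw [pot_root, mul_one]

/-- the homomorphism given by a cocycle and the potential -/
noncomputable def Jt : Γ →* M :=
  MonoidHom.mk' (fun γ => pot hT r ω (γ • r) * c γ r) (by
    intro γ γ'
    have h1 := J_pot hT r ω hadj hω c hcω γ (γ' • r)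
    rw [hc, mul_smul, ← mul_assoc, ← h1, mul_assoc (pot hT r ω (γ • r) * c γ r)])

theorem Jt_pot (γ : Γ) (x : V) :
    Jt hT r ω hadj hω c hc hcω γ * pot hT r ω x = pot hT r ω (γ • x) * c γ x :=
  J_pot hT r ω hadj hω c hcω γ x

theorem Jt_apply (γ : Γ) :
    Jt hT r ω hadj hω c hc hcω γ = pot hT r ω (γ • r) * c γ r := rfl

end act

theorem wp_map {M' : Type} [Group M'] (g : M →* M') {x y : V} (q : T.Walk x y) :
    wp (fun x y => g (ω x y)) q = g (wp ω q) := by
  induction q with
  | nil => exact (map_one g).symm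
  | cons h q ih =>
    change wp (fun x y => g (ω x y)) q * g (ω _ _) = g (wp ω q * ω _ _)
    rw [ih, map_mul]

theorem pot_map {M' : Type} [Group M'] (g : M →* M') (x : V) :
    pot hT r (fun x y => g (ω x y)) x = g (pot hT r ω x) := wp_map ω g _

/-! ## darts modulo a normal subgroup -/

section free

variable {B : Type} (b : V → V → B)

/-- the letters -/
def lt (x y : V) : FreeGroup B := (FreeGroup.of (b y x))⁻¹ * FreeGroup.of (b x y)

theorem lt_inv (x y : V) : lt b y x = (lt b x y)⁻¹ := by
  unfold lt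
  rw [mul_inv_rev, inv_inv]

/-- The product along a nonempty path is a nonempty reduced word. -/
theorem wp_word (h1 : ∀ x y, T.Adj x y → b x y ≠ b y x)
    (h2 : ∀ x y z, T.Adj x y → T.Adj y z → b y z = b y x → z = x) {x y : V} (q : T.Walk x y)
    (hq : q.IsPath) : (∃ L : List (B × Bool), wp (lt b) q = FreeGroup.mk L ∧
      FreeGroup.IsReduced L ∧ ((x = y ∧ L = []) ∨ ∃ (L' : List (B × Bool)) (z : V),
        T.Adj x z ∧ z ∈ q.support ∧ z ≠ x ∧ q.snd = z ∧ L = L' ++ [(b x z, true)])) := by
  induction q with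
  | nil => exact ⟨[], rfl, FreeGroup.IsReduced.nil, Or.inl ⟨rfl, rfl⟩⟩
  | @cons x y w h q ih =>
    rw [SimpleGraph.Walk.cons_isPath_iff] at hq
    obtain ⟨L, hL, hLr, hL'⟩ := ih hq.1
    have e1 : wp (lt b) (SimpleGraph.Walk.cons h q) =
        FreeGroup.mk (L ++ [(b y x, false), (b x y, true)]) := by
      change wp (lt b) q * lt b x y = _
      rw [hL, ← FreeGroup.mul_mk]
      rfl
    refine ⟨L ++ [(b y x, false), (b x y, true)], e1, ?_, Or.inr ⟨L ++ [(b y x, false)], y, h,
      ?_, h.ne', ?_, ?_⟩⟩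
    · rcases hL' with ⟨_, rfl⟩ | ⟨L', z, hz, hzq, _, _, rfl⟩
      · rw [List.nil_append, FreeGroup.isReduced_cons_cons]
        refine ⟨fun h' => absurd h'.symm (h1 x y h), FreeGroup.IsReduced.singleton⟩
      · refine FreeGroup.IsReduced.append_overlap hLr ?_ (List.cons_ne_nil _ _)
        rw [List.singleton_append, FreeGroup.isReduced_cons_cons, FreeGroup.isReduced_cons_cons]
        refine ⟨fun h' => ?_, fun h' => absurd h'.symm (h1 x y h), FreeGroup.IsReduced.singleton⟩
        have h3 := h2 x y z h hz h'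
        subst h3
        exact absurd hzq hq.2
    · rw [SimpleGraph.Walk.support_cons]
      exact List.mem_cons_of_mem _ q.start_mem_support
    · exact SimpleGraph.Walk.snd_cons _ _
    · simp

theorem wp_ne_one (h1 : ∀ x y, T.Adj x y → b x y ≠ b y x)
    (h2 : ∀ x y z, T.Adj x y → T.Adj y z → b y z = b y x → z = x) {x y : V} (q : T.Walk x y)
    (hq : q.IsPath) (h : wp (lt b) q = 1) : x = y := by
  obtain ⟨L, hL, hLr, hL'⟩ := wp_word b h1 h2 q hq
  rcases hL' with ⟨hxy, _⟩ | ⟨L', z, _, _, _, _, hLL⟩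
  · exact hxy
  · exfalso
    rw [hL, FreeGroup.one_eq_mk] at h
    obtain ⟨c, hc1, hc2⟩ := FreeGroup.Red.exact.1 h
    rw [FreeGroup.IsReduced.red_iff_eq hLr] at hc1
    rw [FreeGroup.IsReduced.red_iff_eq FreeGroup.IsReduced.nil] at hc2
    rw [hc2] at hc1
    rw [← hc1] at hLL
    exact absurd hLL.symm (by simp)

end free

end Pool.Agent.Q143.TR
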